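import Pool.Agent.Lib.H96S.BN9

/-!
# Finite groups equal to a Sylow product in every prime ordering

Let `G` be a finite group all of whose nonabelian composition factors are in the following list:
* the groups with a BN-pair whose parameters `q_s = |B s B| / |B|` are powers of one prime, such that
  `q_s + 1` is divisible by two different primes for at least one distinguished generator `s`
  (this should cover every simple group of Lie type for which some `q_s + 1` is not a prime power);
* `PSL(2, q)`, `q ≥ 4`; `PSU(3, q)`, `q ≥ 3`; `PSp(4, q)`, `q` odd; `PSL(3, 3)`;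
* the groups with a transitive action on a finite set such that some Sylow subgroup has exactly two
  orbits, of sizes `m` and `n`, where `(m + n) / gcd (m, n)` is divisible by two different primes.
Then `G` has property (∗) if and only if every nonabelian composition factor of `G` is isomorphic to
`PSL(2, 7)`.

Proof (files `Pool/Agent/Lib/H96S`, see `PROOF.md` there).
1. (∗) is inherited by normal subgroups and quotients, hence by composition factors (B9, B10).
2. If all nonabelian composition factors of the normal subgroup `N` are `PSL(2, 7)` and `G / N` has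
   (∗), then `G` has (∗) (B1 - B8, B11, B12).
3. Zonal functions (N1, N2): let `P` be a Sylow `p`-subgroup and `f` a nonconstant integral function on
   `G` with `∑_{u ∈ P} f(g u h) = c(g) f(h)`, such that all values of `f` are congruent to an integer
   prime to `r s` modulo `r s`, for two different primes `r, s`.  Then `G` does not have (∗): for
   `G = A P B` exactly, `∑_A c(a) = 0` or `∑_B f(b h) = 0`, so `r s` divides `|A| |P|` or `|B|`.
4. Groups with a BN-pair (BN1 - BN9): the zonal function belongs to the linear character of the Hecke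
   algebra with the value `-1` at the conjugates of `s` and `q_t` at the other generators `t`.  Its values
   are, up to a factor, `(-1)^m / (product of the q_t)`, the product over the `m` letters conjugate to
   `s` of a reduced word; they are congruent modulo `q_s + 1`.
5. Two orbits: the zonal function of the permutation module (N3, N13).  This settles `PSU(3, q)` (UA - UC)
   and `PSL(2, q)` if `q + 1` is not a prime power.
6. `PSL(2, q)`, `q + 1` a prime power, `q ≠ 7` (N4 - N15): the middle Sylow subgroup acts regularly on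
   the projective line (modulo the centre), the last one is a torus; the function `Q(g e₁)^k`, where
   `Q` is the norm form, takes every value equally often, and a polynomial identity excludes this.
7. `PSp(4, q)`, `q` odd (D1, QA - QD): a determinant modulo 2.
8. `PSL(3, 3)` (L1 - L3): a computation with the 13 points of the projective plane, checked by the
   kernel.
-/

namespace Pool.Agent.Results.MP_eacb4d_al.LieTypeFactors

open Matrix
open scoped Pointwise

/-- Property (∗): for every ordering `l = [p₁, …, p_m]` of the prime divisors of `|G|` there are Sylow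
subgroups `P_i ∈ Syl_{p_i}(G)` with `G = P₁ P₂ ⋯ P_m` (product of sets). -/
def Star (G : Type) [Group G] : Prop :=
  ∀ l : List ℕ, l.Nodup → (∀ p, p ∈ l ↔ p ∈ (Nat.card G).primeFactors) →
    ∃ P : (p : ℕ) → Sylow p G,
      (l.map (fun p => ((P p : Subgroup G) : Set G))).prod = Set.univ

/-- The simple group `S` is (isomorphic to) a composition factor of `G`: a simple quotient of a
subnormal subgroup of `G`. -/
def IsCompFactor (G : Type) [Group G] (S : Type) [Group S] : Prop :=
  IsSimpleGroup S ∧ ∃ H : Subgroup G, H.IsSubnormal ∧ ∃ f : H →* S, Function.Surjective f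

/-- the group `PSL(2, F)` -/
abbrev PSL2 (F : Type) [Field F] : Type := ProjectiveSpecialLinearGroup (Fin 2) F

/-- the simple group `PSL(2, 7)` of order 168 -/
abbrev PSL27 : Type := ProjectiveSpecialLinearGroup (Fin 2) (ZMod 7)

/-- the group `SL(3, 3)` (its centre is trivial) -/
abbrev SL33 : Type := SpecialLinearGroup (Fin 3) (ZMod 3)

/-- the Hermitian form `x₀ y₂^q + x₁ y₁^q + x₂ y₀^q` on `F³`, `|F| = q²` -/
def herm {F : Type} [Field F] (q : ℕ) (x y : Fin 3 → F) : F :=
  x 0 * y 2 ^ q + x 1 * y 1 ^ q + x 2 * y 0 ^ q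

/-- `SU(3, q)`: the matrices of determinant 1 over the field `F` with `q²` elements which preserve
the Hermitian form `herm q` -/
def SU3 (F : Type) [Field F] (q : ℕ) : Subgroup (SpecialLinearGroup (Fin 3) F) where
  carrier := {A | ∀ x y : Fin 3 → F, herm q (A.1.mulVec x) (A.1.mulVec y) = herm q x y}
  mul_mem' := by
    intro A B hA hB x y
    have h1 : ((A * B : SpecialLinearGroup (Fin 3) F).1.mulVec x) = A.1.mulVec (B.1.mulVec x) :=
      (Matrix.mulVec_mulVec x A.1 B.1).symm
    have h2 : ((A * B : SpecialLinearGroup (Fin 3) F).1.mulVec y) = A.1.mulVec (B.1.mulVec y) :=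
      (Matrix.mulVec_mulVec y A.1 B.1).symm
    rw [h1, h2, hA, hB]
  one_mem' := by
    intro x y
    simp
  inv_mem' := by
    intro A hA x y
    have h : ∀ z : Fin 3 → F, A.1.mulVec ((A⁻¹ : SpecialLinearGroup (Fin 3) F).1.mulVec z) = z := by
      intro z
      have h1 := Matrix.mulVec_mulVec z A.1 (A⁻¹ : SpecialLinearGroup (Fin 3) F).1
      have h2 : A.1 * (A⁻¹ : SpecialLinearGroup (Fin 3) F).1 = 1 := by
        exact congrArg Subtype.val (mul_inv_cancel A)
      rw [h1, h2, Matrix.one_mulVec]
    rw [← hA, h, h]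

/-- the alternating form `x₀ y₃ - x₃ y₀ + x₁ y₂ - x₂ y₁` on `F⁴` -/
def altf {F : Type} [Field F] (x y : Fin 4 → F) : F :=
  x 0 * y 3 - x 3 * y 0 + x 1 * y 2 - x 2 * y 1

/-- `Sp(4, F)`: the matrices of determinant 1 which preserve the alternating form `altf` -/
def Sp4 (F : Type) [Field F] : Subgroup (SpecialLinearGroup (Fin 4) F) where
  carrier := {A | ∀ x y : Fin 4 → F, altf (A.1.mulVec x) (A.1.mulVec y) = altf x y}
  mul_mem' := by
    intro A B hA hB x y
    have h1 : ((A * B : SpecialLinearGroup (Fin 4) F).1.mulVec x) = A.1.mulVec (B.1.mulVec x) :=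
      (Matrix.mulVec_mulVec x A.1 B.1).symm
    have h2 : ((A * B : SpecialLinearGroup (Fin 4) F).1.mulVec y) = A.1.mulVec (B.1.mulVec y) :=
      (Matrix.mulVec_mulVec y A.1 B.1).symm
    rw [h1, h2, hA, hB]
  one_mem' := by
    intro x y
    simp
  inv_mem' := by
    intro A hA x y
    have h : ∀ z : Fin 4 → F, A.1.mulVec ((A⁻¹ : SpecialLinearGroup (Fin 4) F).1.mulVec z) = z := by
      intro z
      have h1 := Matrix.mulVec_mulVec z A.1 (A⁻¹ : SpecialLinearGroup (Fin 4) F).1
      have h2 : A.1 * (A⁻¹ : SpecialLinearGroup (Fin 4) F).1 = 1 := by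
        exact congrArg Subtype.val (mul_inv_cancel A)
      rw [h1, h2, Matrix.one_mulVec]
    rw [← hA, h, h]

/-- the group `PSU(3, q)`, `|F| = q²` -/
abbrev PSU3 (F : Type) [Field F] (q : ℕ) : Type := SU3 F q ⧸ Subgroup.center (SU3 F q)

/-- the group `PSp(4, F)` -/
abbrev PSp4 (F : Type) [Field F] : Type := Sp4 F ⧸ Subgroup.center (Sp4 F)

/-- `S` acts transitively on a finite set `Ω` such that some Sylow subgroup `P` of `S` has exactly two
orbits, those of `x` and `y`, of sizes `n₁` and `n₂`, and two different primes `r` and `s` divide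
`(n₁ + n₂) / gcd (n₁, n₂)`. -/
def TwoOrbit (S : Type) [Group S] : Prop :=
  ∃ (p : ℕ) (P : Sylow p S) (Ω : Type) (_ : Finite Ω) (_ : MulAction S Ω) (x y : Ω) (r s : ℕ),
    p.Prime ∧ MulAction.IsPretransitive S Ω ∧
    Disjoint (MulAction.orbit P x) (MulAction.orbit P y) ∧
    MulAction.orbit P x ∪ MulAction.orbit P y = Set.univ ∧
    r.Prime ∧ s.Prime ∧ r ≠ s ∧
    r * s ∣ (Nat.card (MulAction.orbit P x) + Nat.card (MulAction.orbit P y)) /
      Nat.gcd (Nat.card (MulAction.orbit P x)) (Nat.card (MulAction.orbit P y))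

/-- the double coset `B g B` -/
def dc {S : Type} [Group S] (B : Subgroup S) (g : S) : Set S :=
  {x | ∃ b ∈ B, ∃ b' ∈ B, x = b * g * b'}

/-- `(B, N)` is a BN-pair (Tits system) in the group `S`: `B` and `N` generate `S`, `T = B ⊓ N` is normal in
`N`, and `R ⊆ N` is a set of representatives of a set of generators of order 2 of the Weyl group
`W = N / T` such that `s B n ⊆ B n B ∪ B s n B` and `s B s⁻¹ ⊄ B` for `s ∈ R` and `n ∈ N`. -/
structure IsBNPair {S : Type} [Group S] (B N : Subgroup S) (R : Set S) : Prop where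
  gen : B ⊔ N = ⊤
  norm : ∀ n ∈ N, ∀ t ∈ B ⊓ N, n * t * n⁻¹ ∈ B
  genN : Subgroup.closure R ⊔ (B ⊓ N) = N
  sq : ∀ s ∈ R, s * s ∈ B
  not_mem : ∀ s ∈ R, s ∉ B
  cell : ∀ s ∈ R, ∀ n ∈ N, ∀ b ∈ B, s * b * n ∈ dc B n ∨ s * b * n ∈ dc B (s * n)
  nontriv : ∀ s ∈ R, ∃ b ∈ B, s * b * s⁻¹ ∉ B

/-- `S` has a BN-pair whose parameters `q_s = |B s B| / |B|` are powers of a prime `p`, and for at least
one distinguished generator `s` two different primes divide `q_s + 1`. -/
def LieType (S : Type) [Group S] : Prop :=
  ∃ (B N : Subgroup S) (R : Set S) (p : ℕ), IsBNPair B N R ∧ p.Prime ∧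
    (∀ s ∈ R, ∃ k : ℕ, Nat.card (dc B s) = p ^ k * Nat.card B) ∧
    ∃ s ∈ R, ∃ q r r' : ℕ, Nat.card (dc B s) = q * Nat.card B ∧ r.Prime ∧ r'.Prime ∧ r ≠ r' ∧
      r * r' ∣ q + 1

/-- The list: groups with a BN-pair as above; `PSL(2, F)` with `|F| ≥ 4`; `PSU(3, q)` with `q ≥ 3`;
`PSp(4, F)` with `|F|` odd; `SL(3, 3)`; groups with a Sylow subgroup with two orbits as above. -/
def Listed (S : Type) [Group S] : Prop :=
  LieType S ∨
  (∃ (F : Type) (_ : Field F), Finite F ∧ 4 ≤ Nat.card F ∧ Nonempty (S ≃* PSL2 F)) ∨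
  (∃ (F : Type) (_ : Field F) (q : ℕ), 3 ≤ q ∧ Nat.card F = q ^ 2 ∧ Nonempty (S ≃* PSU3 F q)) ∨
  (∃ (F : Type) (_ : Field F), Finite F ∧ Odd (Nat.card F) ∧ Nonempty (S ≃* PSp4 F)) ∨
  Nonempty (S ≃* SL33) ∨ TwoOrbit S

theorem hasBN_of_lieType {S : Type} [Group S] (h : LieType S) : H96S.HasBN S := by
  obtain ⟨B, N, R, p, h1, h2, h3, h4⟩ := h
  exact ⟨B, N, R, p, ⟨h1.gen, h1.norm, h1.genN, h1.sq, h1.not_mem, h1.cell, h1.nontriv⟩, h2, h3, h4⟩

theorem result (G : Type) [Group G] [Finite G]
    (hG : ∀ (S : Type) [Group S], IsCompFactor G S → (∀ x y : S, x * y = y * x) ∨ Listed S) :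
    Star G ↔ ∀ (S : Type) [Group S], IsCompFactor G S →
      (∀ x y : S, x * y = y * x) ∨ Nonempty (S ≃* PSL27) := by
  refine H96S.mainBN fun S _ hS => ?_
  rcases hG S hS with h | h | h
  · exact Or.inl h
  · exact Or.inr (Or.inr (hasBN_of_lieType h))
  · exact Or.inr (Or.inl h)

end Pool.Agent.Results.MP_eacb4d_al.LieTypeFactors
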