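import Pool.Agent.Lib.H96S.N16

/-!
# Extensions of groups with property (∗) by groups with composition factors `PSL(2, 7)`

Let `N` be a normal subgroup of the finite group `G` such that every nonabelian composition factor
of `N` is isomorphic to `PSL(2, 7)`.  Then `G` has property (∗) if and only if `G / N` has it.

Proof (files `Pool/Agent/Lib/H96S/B1 - B12`).  One may assume that `N` is a minimal normal subgroup.
If `N` is a `p`-group, lift the Sylow subgroups.  Otherwise `N = PSL(2, 7)^r`.  Up to reversal of the
ordering, `2` comes after `3` and `7`, or `3, 2, 7` come in this order.  In the first case one uses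
`N = X Q`, `X` the normaliser of a Sylow 7-subgroup of `N` (of order `21^r`), `Q` a Sylow 2-subgroup, in the
second one `N = Y A`, `Y` a subgroup of order `24^r` and `A` a Sylow 7-subgroup; by the Frattini argument
there are subgroups `M` of `G` with `G = M N` which normalise a suitable Sylow subgroup of `N`, and
the Sylow subgroups of `G / N` are lifted to `M`.
-/

namespace Pool.Agent.Results.MP_eacb4d_al.NormalReduction

open Matrix
open scoped Pointwise

/-- Property (∗): for every ordering `l = [p₁, …, p_m]` of the prime divisors of `|G|` there are Sylow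
subgroups `P_i ∈ Syl_{p_i}(G)` with `G = P₁ P₂ ⋯ P_m` (product of sets). -/
def Star (G : Type) [Group G] : Prop :=
  ∀ l : List ℕ, l.Nodup → (∀ p, p ∈ l ↔ p ∈ (Nat.card G).primeFactors) →
    ∃ P : (p : ℕ) → Sylow p G,
      (l.map (fun p => ((P p : Subgroup G) : Set G))).prod = Set.univ

/-- The simple group `S` is (isomorphic to) a composition factor of `G`: a simple quotient of a
subnormal subgroup of `G`. -/
def IsCompFactor (G : Type) [Group G] (S : Type) [Group S] : Prop :=
  IsSimpleGroup S ∧ ∃ H : Subgroup G, H.IsSubnormal ∧ ∃ f : H →* S, Function.Surjective f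

/-- the simple group `PSL(2, 7)` of order 168 -/
abbrev PSL27 : Type := ProjectiveSpecialLinearGroup (Fin 2) (ZMod 7)

theorem result (G : Type) [Group G] [Finite G] (N : Subgroup G) [N.Normal]
    (hN : ∀ (S : Type) [Group S], IsCompFactor N S →
      (∀ x y : S, x * y = y * x) ∨ Nonempty (S ≃* PSL27)) :
    Star G ↔ Star (G ⧸ N) :=
  H96S.star_iff_quotient N hN

end Pool.Agent.Results.MP_eacb4d_al.NormalReduction
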